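import Pool.Agent.K1H73.ON.Stm

/-!
# Project ON, piece FL: the flip at the place of scale `k`
-/

set_option autoImplicit false

namespace Pool.Agent.K1H46.ON

open Finset
open Pool.Agent.K1H73.ON

theorem cor_add6 (c : V) (i : ℕ) : cor c (i + 6) = cor c i := by
  unfold cor
  rw [Nat.add_mod_right]

theorem cor_mod (c : V) (i : ℕ) : cor c (i % 6) = cor c i := by
  unfold cor
  rw [Nat.mod_mod]

theorem side_mod (c : V) (i : ℕ) : side c (i % 6) = side c i := by
  unfold side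
  rw [cor_mod]
  congr 1
  unfold cor
  rw [Nat.mod_add_mod]

theorem side_inj (c : V) : Set.InjOn (side c) (Finset.range 6 : Set ℕ) := by
  intro i hi j hj h
  obtain ⟨x, y⟩ := c
  simp only [coe_range, Set.mem_Iio] at hi hj
  interval_cases i <;> interval_cases j <;> first
    | rfl
    | (exfalso; revert h; simp [side, cor]; done)
    | (exfalso; revert h; simp [side, cor]; omega)

theorem card_hex (c : V) : (hex c).card = 6 := by
  unfold hex
  rw [Finset.card_image_of_injOn (side_inj c), Finset.card_range]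

theorem side_mem (c : V) (i : ℕ) : side c i ∈ hex c := by
  rw [← side_mod]
  exact Finset.mem_image_of_mem _ (Finset.mem_range.2 (Nat.mod_lt _ (by norm_num)))

theorem cor_of_mem_hex {c : V} {e : Sym2 V} (he : e ∈ hex c) {v : V} (hv : v ∈ e) :
    ∃ i < 6, v = cor c i := by
  unfold hex at he
  obtain ⟨i, hi, rfl⟩ := Finset.mem_image.1 he
  rw [Finset.mem_range] at hi
  unfold side at hv
  rcases Sym2.mem_iff.1 hv with h | h
  · exact ⟨i, hi, h⟩
  · exact ⟨(i + 1) % 6, Nat.mod_lt _ (by norm_num), by rw [cor_mod]; exact h⟩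

/-- the two sides and the four sides of an arc -/
theorem hex_eq (c : V) (i : ℕ) (hi : i < 6) :
    hex c = {side c i, side c (i + 1)} ∪
      {side c (i + 2), side c (i + 3), side c (i + 4), side c (i + 5)} := by
  have h6 : ∀ j, side c (j + 6) = side c j := by
    intro j
    rw [← side_mod, ← side_mod c j, Nat.add_mod_right]
  have e6 := h6 0
  have e7 := h6 1
  have e8 := h6 2
  have e9 := h6 3
  have e10 := h6 4
  norm_num at e6 e7 e8 e9 e10
  ext e
  simp only [hex, Finset.mem_image, Finset.mem_range, Finset.mem_union, Finset.mem_insert,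
    Finset.mem_singleton]
  constructor
  · rintro ⟨j, hj, rfl⟩
    interval_cases i <;> interval_cases j <;> simp [e6, e7, e8, e9, e10]
  · intro h
    have : ∃ j, e = side c j := by
      rcases h with (h | h) | h | h | h | h <;> exact ⟨_, h⟩
    obtain ⟨j, rfl⟩ := this
    exact ⟨j % 6, Nat.mod_lt _ (by norm_num), side_mod c j⟩

theorem disj (c : V) (i : ℕ) (hi : i < 6) :
    Disjoint ({side c i, side c (i + 1)} : Finset (Sym2 V))
      {side c (i + 2), side c (i + 3), side c (i + 4), side c (i + 5)} := by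
  rw [← Finset.card_union_eq_card_add_card]
  apply le_antisymm (Finset.card_union_le _ _)
  rw [← hex_eq c i hi, card_hex]
  have h1 : ({side c i, side c (i + 1)} : Finset (Sym2 V)).card ≤ 2 := Finset.card_le_two
  have h2 : ({side c (i + 2), side c (i + 3), side c (i + 4), side c (i + 5)} :
    Finset (Sym2 V)).card ≤ 4 := Finset.card_le_four
  omega

theorem card_AB (c : V) (i : ℕ) (hi : i < 6) :
    ({side c i, side c (i + 1)} : Finset (Sym2 V)).card = 2 ∧
    ({side c (i + 2), side c (i + 3), side c (i + 4), side c (i + 5)} :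
    Finset (Sym2 V)).card = 4 := by
  have h1 : ({side c i, side c (i + 1)} : Finset (Sym2 V)).card ≤ 2 := Finset.card_le_two
  have h2 : ({side c (i + 2), side c (i + 3), side c (i + 4), side c (i + 5)} :
    Finset (Sym2 V)).card ≤ 4 := Finset.card_le_four
  have h3 := Finset.card_union_of_disjoint (disj c i hi)
  rw [← hex_eq c i hi, card_hex] at h3
  omega

theorem inter_symm (c : V) (ω : Finset (Sym2 V)) :
    symmDiff ω (hex c) ∩ hex c = hex c \ (ω ∩ hex c) := by
  ext e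
  simp only [Finset.mem_inter, Finset.mem_symmDiff, Finset.mem_sdiff]
  tauto

theorem A_to_B {c : V} {i : ℕ} (hi : i < 6) {ω : Finset (Sym2 V)} (h : TyA c i ω) :
    TyB c i (symmDiff ω (hex c)) := by
  unfold TyA at h
  unfold TyB
  rw [inter_symm, h]
  conv_lhs => rw [hex_eq c i hi]
  exact Finset.union_sdiff_cancel_left (disj c i hi)

theorem B_to_A {c : V} {i : ℕ} (hi : i < 6) {ω : Finset (Sym2 V)} (h : TyB c i ω) :
    TyA c i (symmDiff ω (hex c)) := by
  unfold TyB at h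
  unfold TyA
  rw [inter_symm, h]
  conv_lhs => rw [hex_eq c i hi]
  exact Finset.union_sdiff_cancel_right (disj c i hi)

theorem not_A_B {c : V} {i j : ℕ} (hi : i < 6) (hj : j < 6) {ω : Finset (Sym2 V)}
    (h : TyA c i ω) (h' : TyB c j ω) : False := by
  have h1 := (card_AB c i hi).1
  have h2 := (card_AB c j hj).2
  unfold TyA at h
  unfold TyB at h'
  rw [← h] at h1
  rw [← h'] at h2
  omega

theorem symm2 (ω S : Finset (Sym2 V)) : symmDiff (symmDiff ω S) S = ω :=
  symmDiff_symmDiff_cancel_right _ _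

theorem t_FL (h1 : EX) (h2 : INV) (h3 : GEO) (h4 : FLP) (h5 : CF) (h6 : DG) : FL := by
  intro n x K D a b ω k hn hx0 hS hcfg hk1 hk3 hF ω'
  have haR : a ∈ R k := by
    obtain ⟨-, ha2, ha1, -⟩ := hS
    show 0 ≤ a.2 ∧ a.2 < k ∧ a.1 + a.2 < 2 * k ∧ a.2 - a.1 < 2 * k
    rcases ha1 with h | h <;> rw [ha2, h] <;> refine ⟨?_, ?_, ?_, ?_⟩ <;> omega
  have hbR : b ∉ R k := by
    obtain ⟨-, -, -, -, hb⟩ := hS
    rintro ⟨hb0, hb1, hb2, hb3⟩
    apply hb
    have hk : (k : ℤ) ≤ 3 * (K : ℤ) := hk3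
    refine ⟨abs_le.2 ⟨?_, ?_⟩, ?_⟩ <;> omega
  have hex := h1 D a b ω k hcfg haR hbR
  obtain ⟨g1, g2, ⟨j, hj, g3⟩, g4, g5, g6⟩ := h3 K D a b ω k hS hcfg hk1 hk3 hex
  set c := hx a ω k with hc
  have hout : ∀ e ∈ Pool.Agent.K1H73.ON.hex c, ∀ v ∈ e, v ∉ R k := by
    intro e he v hv
    obtain ⟨i, hi, rfl⟩ := cor_of_mem_hex he hv
    exact (g2 i hi).2.1
  have hcfg' : IsCfg D a b ω' := h5 D a b ω c hcfg g1 fun i hi =>
    ⟨(g2 i hi).1, (g2 i hi).2.2.2.1, (g2 i hi).2.2.2.2⟩
  have hinv : hx a ω' k = c := by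
    refine ((h2 a ω ω' k haR ?_).2).symm
    rintro e ⟨v, hv, hvR⟩
    have : e ∉ Pool.Agent.K1H73.ON.hex c := fun he => hout e he v hv hvR
    show e ∈ ω ↔ e ∈ symmDiff ω (Pool.Agent.K1H73.ON.hex c)
    rw [Finset.mem_symmDiff]
    tauto
  have hback : symmDiff ω' (Pool.Agent.K1H73.ON.hex c) = ω := symm2 _ _
  refine ⟨hcfg', hinv, ?_, hback, hout, ?_, ?_⟩
  · obtain ⟨i, hi, h | h⟩ := hF
    · exact ⟨i, hi, Or.inr (A_to_B hi h)⟩
    · exact ⟨i, hi, Or.inl (B_to_A hi h)⟩
  · obtain ⟨i, hi, h | h⟩ := hF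
    · constructor
      · rintro - ⟨j, hj, hB⟩
        exact not_A_B hi hj h hB
      · intro _
        exact ⟨i, hi, A_to_B hi h⟩
    · constructor
      · rintro ⟨j, hj, hB⟩
        exact absurd hB fun hB => not_A_B hi hj (B_to_A hi h) hB
      · intro hn
        exact absurd ⟨i, hi, h⟩ hn
  · intro hnB
    obtain ⟨i, hi, h | h⟩ := hF
    swap
    · exact absurd ⟨i, hi, h⟩ hnB
    have hnb : ∀ j < 6, cor c j ≠ a ∧ cor c j ≠ b := fun j hj =>
      ⟨(g2 j hj).2.2.2.1, (g2 j hj).2.2.2.2⟩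
    obtain ⟨d1, d3, d4, d5, d6⟩ := h6 D a b ω c i hcfg hi g1 hnb h
    have hna : ∀ j, a ≠ cor c j := by
      intro j
      rw [← cor_mod]
      exact (hnb _ (Nat.mod_lt _ (by norm_num))).1.symm
    have hN : ∀ e ∈ ω, ∃ p q, e = s(p, q) ∧ Nbr p q := by
      intro e he
      obtain ⟨p, q, h1, h2, -⟩ := hcfg.1 e he
      exact ⟨p, q, h1, h2⟩
    obtain ⟨-, f2, f3, f4⟩ := h4 a ω c i hi g1 hN h (hna _) (hna _) (hna _) (hna _) d1 d3 d4 d5
    have hconn : Conn ω a (cor c i) :=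
      d6 (ex a ω k).1 (ex a ω k).2 hex.2.2.1 g4 ⟨j, hj, g3⟩ g6
    refine ⟨?_, (f4 hconn).1⟩
    show x ^ (symmDiff ω (Pool.Agent.K1H73.ON.hex c)).card *
      n ^ loops a (symmDiff ω (Pool.Agent.K1H73.ON.hex c)) = x ^ 2 * (x ^ ω.card * n ^ loops a ω)
    rw [f2, f3, pow_add]
    ring

end Pool.Agent.K1H46.ON
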